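import Mathlib
import Pool.Agent.N290.RM.Stm
import Pool.Agent.N861.RJ.C9

/-!
# Project RM (helper290), part KS: weights with small tails are small near the boundary
(this part by helper164)
-/

set_option autoImplicit false

open Complex MeasureTheory Set Filter Topology
open scoped ENNReal

namespace Pool.Agent.N164.RM

open Pool.Agent.N290.RJ Pool.Agent.N290.RL Pool.Agent.N290.RM Pool.Agent.N861.RJ

variable {d : ℕ}

theorem fst_le_nm (ξ : E d) : ‖ξ.1‖ ≤ nm ξ := by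
  have h0 : 0 ≤ ∑ i, ‖ξ.2 i‖ ^ 2 := by positivity
  have h8 : ‖ξ.1‖ ^ 2 ≤ N ξ := by unfold N; linarith
  rw [← nm_sq] at h8
  exact abs_le_of_sq_le_sq' h8 (nm_nonneg ξ) |>.2

theorem Ph_zero (x : ℝ) : Ph x (0 : E d) = ((x : ℂ), 0) := by
  unfold Ph
  simp

/-- a compact ball -/
theorem K_compact : IsCompact {ξ : E d | N ξ ≤ 1 / 4} := by
  apply Metric.isCompact_of_isClosed_isBounded
  · exact isClosed_le N_continuous continuous_const
  · refine (Metric.isBounded_iff_subset_closedBall 0).2 ⟨1, fun ξ hξ => ?_⟩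
    have h3 : ‖ξ.1‖ ^ 2 + ∑ i, ‖ξ.2 i‖ ^ 2 ≤ 1 / 4 := hξ
    rw [mem_closedBall_zero_iff, Prod.norm_def, max_le_iff]
    constructor
    · have h4 : 0 ≤ ∑ i, ‖ξ.2 i‖ ^ 2 := by positivity
      nlinarith [norm_nonneg ξ.1]
    · rw [pi_norm_le_iff_of_nonneg zero_le_one]
      intro i
      have h4 : ‖ξ.2 i‖ ^ 2 ≤ ∑ i, ‖ξ.2 i‖ ^ 2 :=
        Finset.single_le_sum (f := fun i => ‖ξ.2 i‖ ^ 2) (fun _ _ => by positivity)
          (Finset.mem_univ i)
      nlinarith [norm_nonneg (ξ.2 i), sq_nonneg ‖ξ.1‖]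

/-- the invariant length of rays -/
theorem len_ray {ξ : E d} (h : N ξ ≤ 1 / 4) {t : ℝ} (h0 : 0 ≤ t) (h1 : t ≤ 1) :
    len (t • ξ) ξ ≤ 1 := by
  unfold len len2
  rw [N_smul]
  have hn := N_nonneg ξ
  have e1 : ‖N290.RJ.ip ξ (t • ξ)‖ = t * N ξ := by
    have e0 : t • ξ = (t : ℂ) • ξ := by ext <;> simp
    rw [← ip_conj, RCLike.norm_conj, e0, ip_smul_left, ip_self, norm_mul, Complex.norm_real,
      Complex.norm_real, Real.norm_eq_abs, Real.norm_eq_abs, abs_of_nonneg h0, abs_of_nonneg hn]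
  rw [e1]
  have h2 : t ^ 2 ≤ 1 := pow_le_one₀ h0 h1
  have h3 : 3 / 4 ≤ 1 - t ^ 2 * N ξ := by nlinarith
  have h4 : 0 < 1 - t ^ 2 * N ξ := by linarith
  have h5 : N ξ / (1 - t ^ 2 * N ξ) ≤ 1 / 3 := by
    rw [div_le_iff₀ h4]; linarith
  have h6 : (t * N ξ) ^ 2 / (1 - t ^ 2 * N ξ) ^ 2 ≤ 1 / 3 := by
    rw [← div_pow]
    have h7 : t * N ξ / (1 - t ^ 2 * N ξ) ≤ 1 / 3 := by
      rw [div_le_iff₀ h4]; nlinarith
    have h8 : 0 ≤ t * N ξ / (1 - t ^ 2 * N ξ) := by positivity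
    nlinarith
  rw [← Real.sqrt_one]
  exact Real.sqrt_le_sqrt (by linarith)

/-- lower bounds for the weight -/
theorem a_low (h6 : C6 d) {a : E d → ℝ} (ha : AW a) {x : ℝ} (hx : 0 ≤ x) (hx1 : x < 1)
    {U : E d →L[ℂ] E d} (hU : IsU U) {ξ : E d} (hξ : N ξ ≤ 1 / 4) :
    a (U ((x : ℂ), 0)) / 2 ≤ a (U (Ph x ξ)) := by
  have hB : ∀ t ∈ Icc (0 : ℝ) 1, t • ξ ∈ B d := fun t ht =>
    smul_mem_B (mem_B.2 (by linarith)) ht.1 ht.2
  have hUB : ∀ t ∈ Icc (0 : ℝ) 1, U (Ph x (t • ξ)) ∈ B d := by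
    intro t ht
    rw [hU.mem]
    obtain ⟨-, -, e1, -⟩ := h6 x hx hx1 _ (hB t ht)
    have h1 : N (t • ξ) < 1 := hB t ht
    have h2 := u_ge hx (t • ξ)
    have h3 := norm_fst_lt (hB t ht)
    have h4 := norm_nonneg (t • ξ).1
    have h5 : 0 < ‖1 - (x : ℂ) * (t • ξ).1‖ := by nlinarith
    have h6 : 0 < (1 - x ^ 2) * (1 - N (t • ξ)) / ‖1 - (x : ℂ) * (t • ξ).1‖ ^ 2 := by
      have : 0 < 1 - x ^ 2 := by nlinarith
      have : 0 < 1 - N (t • ξ) := by linarith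
      positivity
    rw [mem_B]
    linarith
  have hd : ∀ t ∈ Icc (0 : ℝ) 1, HasDerivAt (fun s : ℝ => a (U (Ph x (s • ξ))))
      (fderiv ℝ a (U (Ph x (t • ξ))) (U (dPh x (t • ξ) ξ))) t := by
    intro t ht
    obtain ⟨e1, e2, -⟩ := h6 x hx hx1 _ (hB t ht)
    have k1 : HasDerivAt (fun s : ℝ => s • ξ) ξ t := by
      simpa using (hasDerivAt_id t).smul_const ξ
    have k2 : HasFDerivAt (Ph x) ((fderiv ℂ (Ph x) (t • ξ)).restrictScalars ℝ) (t • ξ) :=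
      e1.hasFDerivAt.restrictScalars ℝ
    have k3 : HasDerivAt (fun s : ℝ => Ph x (s • ξ)) (dPh x (t • ξ) ξ) t := by
      have k := k2.comp_hasDerivAt t k1
      rw [ContinuousLinearMap.coe_restrictScalars', e2] at k
      exact k
    have k4 : HasDerivAt (fun s : ℝ => U (Ph x (s • ξ))) (U (dPh x (t • ξ) ξ)) t :=
      (U.restrictScalars ℝ).hasFDerivAt.comp_hasDerivAt t k3
    have k5 : HasFDerivAt a (fderiv ℝ a (U (Ph x (t • ξ)))) (U (Ph x (t • ξ))) :=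
      ((ha.a1.differentiableOn (by norm_num)).differentiableAt
        (B_open.mem_nhds (hUB t ht))).hasFDerivAt
    exact k5.comp_hasDerivAt t k4
  have hl : ∀ t ∈ Icc (0 : ℝ) 1, HasDerivWithinAt (fun s : ℝ => Real.log (a (U (Ph x (s • ξ)))))
      (fderiv ℝ a (U (Ph x (t • ξ))) (U (dPh x (t • ξ) ξ)) / a (U (Ph x (t • ξ)))) (Icc 0 1) t :=
    fun t ht => ((hd t ht).log (ha.a2 _ (hUB t ht)).1.ne').hasDerivWithinAt
  have hb : ∀ t ∈ Icc (0 : ℝ) 1,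
      ‖fderiv ℝ a (U (Ph x (t • ξ))) (U (dPh x (t • ξ) ξ)) / a (U (Ph x (t • ξ)))‖ ≤ 1 / 256 := by
    intro t ht
    have k1 := ha.a3 _ (hUB t ht) (U (dPh x (t • ξ) ξ))
    obtain ⟨-, -, -, e4, -⟩ := h6 x hx hx1 _ (hB t ht)
    rw [hU.len, e4] at k1
    have k2 := (ha.a2 _ (hUB t ht)).1
    have k3 := len_ray hξ ht.1 ht.2
    rw [norm_div, Real.norm_eq_abs, Real.norm_eq_abs, abs_of_pos k2, div_le_iff₀ k2]
    refine k1.trans ?_
    have := mul_le_mul_of_nonneg_left k3 k2.le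
    linarith
  have hm := Convex.norm_image_sub_le_of_norm_hasDerivWithin_le hl hb (convex_Icc 0 1)
    (left_mem_Icc.2 zero_le_one) (right_mem_Icc.2 zero_le_one)
  simp only [one_smul, zero_smul, Ph_zero, sub_zero, norm_one, mul_one] at hm
  have h0 : U ((x : ℂ), 0) ∈ B d := by
    have := hUB 0 (left_mem_Icc.2 zero_le_one)
    rwa [zero_smul, Ph_zero] at this
  have h1 : U (Ph x ξ) ∈ B d := by
    have := hUB 1 (right_mem_Icc.2 zero_le_one)
    rwa [one_smul] at this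
  have p0 := (ha.a2 _ h0).1
  have p1 := (ha.a2 _ h1).1
  rw [Real.norm_eq_abs, abs_le] at hm
  have h2 : Real.log (a (U ((x : ℂ), 0))) - 1 / 256 ≤ Real.log (a (U (Ph x ξ))) := by
    linarith [hm.1]
  have h3 := Real.exp_le_exp.2 h2
  rw [Real.exp_sub, Real.exp_log p0, Real.exp_log p1] at h3
  refine le_trans ?_ h3
  have h4 : Real.exp (1 / 256) ≤ 2 := by
    have k1 : Real.exp (1 / 256) ≤ Real.exp (Real.log 2) := by
      apply Real.exp_le_exp.2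
      have := Real.log_two_gt_d9
      linarith
    rwa [Real.exp_log (by norm_num)] at k1
  exact div_le_div_of_nonneg_left p0.le (Real.exp_pos _) h4

/-- the pointwise identity -/
theorem ptw (h6 : C6 d) {x : ℝ} (hx : 0 ≤ x) (hx1 : x < 1) {ξ : E d} (hξ : N ξ < 1 / 4)
    (h0 : 0 < N ξ) (T : ℝ) (hT : 0 ≤ T) :
    T / 2 ^ (d + 2) ≤ ((1 - x ^ 2) / ‖1 - (x : ℂ) * ξ.1‖ ^ 2) ^ (d + 2) *
        (T * N290.RJ.ker ((x : ℂ), 0) (Ph x ξ)) := by
  have hB : ξ ∈ B d := mem_B.2 (by linarith)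
  obtain ⟨-, -, e1, -, e0, e2⟩ := h6 x hx hx1 ξ hB
  unfold N290.RJ.ker
  rw [e0, e2, norm_div, RCLike.norm_conj]
  set u : ℝ := ‖1 - (x : ℂ) * ξ.1‖ with hu
  have hux := u_ge hx ξ
  rw [← hu] at hux
  have hf := norm_fst_lt hB
  have hf0 := norm_nonneg ξ.1
  have hn0 := nm_nonneg ξ
  have hn2 := nm_sq ξ
  have hx2 : 0 < 1 - x ^ 2 := by nlinarith
  have hu0 : 0 < u := by nlinarith
  have hu2 : u ≤ 2 := by
    have h1 : ‖1 - (x : ℂ) * ξ.1‖ ≤ ‖(1 : ℂ)‖ + ‖(x : ℂ) * ξ.1‖ := norm_sub_le _ _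
    rw [norm_one, norm_mul, Complex.norm_real, Real.norm_eq_abs, abs_of_nonneg hx] at h1
    nlinarith
  have e7 : ‖(1 : ℂ) - (x : ℂ) ^ 2‖ = 1 - x ^ 2 := by
    have : (1 : ℂ) - (x : ℂ) ^ 2 = ((1 - x ^ 2 : ℝ) : ℂ) := by push_cast; rfl
    rw [this, Complex.norm_real, Real.norm_eq_abs, abs_of_pos hx2]
  rw [e7]
  have e3 : Real.sqrt ((1 - x ^ 2) ^ 2 * N ξ / u ^ 2) = (1 - x ^ 2) / u * nm ξ := by
    have e4 : (1 - x ^ 2) ^ 2 * N ξ / u ^ 2 = ((1 - x ^ 2) / u * nm ξ) ^ 2 := by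
      rw [mul_pow, div_pow, hn2]
      ring
    rw [e4, Real.sqrt_sq (by positivity)]
  rw [e3]
  have hnp : 0 < nm ξ := by
    rw [nm]
    exact Real.sqrt_pos.2 h0
  have e9 : ((1 - x ^ 2) / u ^ 2) ^ (d + 2) * (T * (((1 - x ^ 2) / u) ^ d /
      ((1 - x ^ 2) / u * ((1 - x ^ 2) / u * nm ξ) ^ (2 * d + 1)))) =
      T / u ^ (d + 2) * (1 / nm ξ ^ (2 * d + 1)) := by
    have ha : (1 - x ^ 2) / u ^ 2 = (1 - x ^ 2) / u / u := by
      rw [div_div, ← sq]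
    rw [ha]
    have ha0 : 0 < (1 - x ^ 2) / u := by positivity
    generalize (1 - x ^ 2) / u = a at *
    rw [div_pow, mul_pow]
    have e10 : a ^ d / (a * (a ^ (2 * d + 1) * nm ξ ^ (2 * d + 1))) =
        1 / (a ^ (d + 2) * nm ξ ^ (2 * d + 1)) := by
      rw [div_eq_div_iff (by positivity) (by positivity)]
      have : a ^ d * (a ^ (d + 2) * nm ξ ^ (2 * d + 1)) =
        1 * (a * (a ^ (2 * d + 1) * nm ξ ^ (2 * d + 1))) := by ring
      exact this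
    rw [e10]
    field_simp
  rw [e9]
  have h7 : T / 2 ^ (d + 2) ≤ T / u ^ (d + 2) := by gcongr
  have h8 : 1 ≤ 1 / nm ξ ^ (2 * d + 1) := by
    rw [one_le_div (by positivity)]
    exact pow_le_one₀ hn0 (mem_B_nm.1 hB).le
  have h9 : 0 ≤ T / u ^ (d + 2) := by positivity
  nlinarith

theorem KS_of (d : ℕ) (h3 : C3 d) (h4 : C4 d) (h4b : C4b d) (h6 : C6 d) : KS d := by
  have hVo : IsOpen {ξ : E d | 0 < N ξ ∧ N ξ < 1 / 4} :=
    (isOpen_lt continuous_const N_continuous).inter (isOpen_lt N_continuous continuous_const)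
  set V : ℝ≥0∞ := volume {ξ : E d | 0 < N ξ ∧ N ξ < 1 / 4} with hV
  have hV0 : 0 < V := by
    refine hVo.measure_pos volume ⟨((1 / 4 : ℂ), 0), ?_⟩
    have : N (((1 / 4 : ℂ), 0) : E d) = 1 / 16 := by
      unfold N
      simp
      norm_num
    rw [mem_ofPred_eq, this]
    norm_num
  have hv0 : 0 < (min V 1).toReal := ENNReal.toReal_pos (by positivity)
    (ne_top_of_le_ne_top ENNReal.one_ne_top (min_le_right _ _))
  have hvV : ENNReal.ofReal (min V 1).toReal ≤ V := by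
    rw [ENNReal.ofReal_toReal (ne_top_of_le_ne_top ENNReal.one_ne_top (min_le_right _ _))]
    exact min_le_left _ _
  set v : ℝ := (min V 1).toReal with hv
  refine ⟨4 * 2 ^ (d + 2) / v, by positivity, ?_⟩
  intro τ a ha ht z hz
  obtain ⟨U, hU, -, hUz⟩ := h4b z
  obtain ⟨-, -, h4c⟩ := h4 U hU
  set x : ℝ := nm z with hxdef
  have hx : 0 ≤ x := nm_nonneg z
  have hx1 : x < 1 := mem_B_nm.1 hz
  have hNz : N z = x ^ 2 := (nm_sq z).symm
  have hNz1 : N z < 1 := hz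
  set κ : ℝ := 4 * (1 - N z) with hκ
  have hκ0 : 0 < κ := by rw [hκ]; linarith
  have hT := ht κ hκ0 z hz
  obtain ⟨-, h3c, -⟩ := h3 x hx hx1
  -- the compact set
  set S : Set (E d) := Ph x '' {ξ : E d | N ξ ≤ 1 / 4} with hS
  have hSm : MeasurableSet S := by
    refine (K_compact.image_of_continuousOn ?_).measurableSet
    intro ξ hξ
    have hB : ξ ∈ B d := mem_B.2 (lt_of_le_of_lt hξ (by norm_num))
    exact (h6 x hx hx1 ξ hB).1.continuousAt.continuousWithinAt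
  set G : E d → ℝ≥0∞ := S.indicator
    (fun w => ENNReal.ofReal (a z ^ 2 / 4 * N290.RJ.ker ((x : ℂ), 0) w)) with hG
  have hGm : Measurable G :=
    (ENNReal.measurable_ofReal.comp ((ker_meas _).const_mul _)).indicator hSm
  have hap := (ha.a2 z hz).1
  -- the minorant
  have hmin : ∫⁻ w in B d, G w ≤ ENNReal.ofReal (τ κ) := by
    refine le_trans ?_ hT
    rw [h4c (fun w => ENNReal.ofReal ((if 1 - N w ≤ κ then a w ^ 2 else 0) * N290.RJ.ker z w))]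
    refine lintegral_mono fun w => ?_
    rw [hG]
    by_cases hw : w ∈ S
    · rw [indicator_of_mem hw]
      obtain ⟨ξ, hξ, rfl⟩ := hw
      have hξ' : N ξ ≤ 1 / 4 := hξ
      have hB : ξ ∈ B d := mem_B.2 (by linarith)
      obtain ⟨-, -, e1, -⟩ := h6 x hx hx1 ξ hB
      have hk : N290.RJ.ker z (U (Ph x ξ)) = N290.RJ.ker ((x : ℂ), 0) (Ph x ξ) := by
        conv_lhs => rw [← hUz]
        rw [hU.ker]
      have hle : 1 - N (U (Ph x ξ)) ≤ κ := by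
        rw [hU, e1, hκ, hNz]
        have k1 := u_ge hx ξ
        have k2 := fst_le_nm ξ
        have k3 : nm ξ ≤ 1 / 2 := by
          have := nm_sq ξ
          have := nm_nonneg ξ
          nlinarith
        have k4 := norm_nonneg ξ.1
        have k5 : 1 / 2 ≤ ‖1 - (x : ℂ) * ξ.1‖ := by nlinarith
        have k6 : 0 < 1 - x ^ 2 := by nlinarith
        have k7 := N_nonneg ξ
        have k8 : 0 < ‖1 - (x : ℂ) * ξ.1‖ := by linarith
        rw [div_le_iff₀ (by positivity)]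
        have k9 : 1 / 4 ≤ ‖1 - (x : ℂ) * ξ.1‖ ^ 2 := by nlinarith
        nlinarith
      have hal := a_low h6 ha hx hx1 hU hξ'
      rw [hUz] at hal
      rw [if_pos hle, hk]
      apply ENNReal.ofReal_le_ofReal
      have hk0 := ker_nonneg ((x : ℂ), (0 : Fin d → ℂ)) (Ph x ξ)
      have h5 : a z ^ 2 / 4 ≤ a (U (Ph x ξ)) ^ 2 := by nlinarith
      exact mul_le_mul_of_nonneg_right h5 hk0
    · rw [indicator_of_notMem hw]
      exact zero_le
  rw [h3c G hGm] at hmin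
  -- the lower bound
  have hlow : ENNReal.ofReal (a z ^ 2 / 4 / 2 ^ (d + 2)) * V ≤
      ∫⁻ ξ in B d, ENNReal.ofReal (((1 - x ^ 2) / ‖1 - x * ξ.1‖ ^ 2) ^ (d + 2)) * G (Ph x ξ) := by
    rw [hV, ← setLIntegral_const]
    have hsub : {ξ : E d | 0 < N ξ ∧ N ξ < 1 / 4} ⊆ B d := fun ξ hξ =>
      mem_B.2 (hξ.2.trans (by norm_num))
    refine le_trans ?_ (lintegral_mono_set hsub)
    refine setLIntegral_mono' hVo.measurableSet fun ξ hξ => ?_
    have hmem : Ph x ξ ∈ S := ⟨ξ, hξ.2.le, rfl⟩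
    rw [hG, indicator_of_mem hmem, ← ENNReal.ofReal_mul']
    · apply ENNReal.ofReal_le_ofReal
      exact ptw h6 hx hx1 hξ.2 hξ.1 (a z ^ 2 / 4) (by positivity)
    · have hk0 := ker_nonneg ((x : ℂ), (0 : Fin d → ℂ)) (Ph x ξ)
      positivity
  have h5 : ENNReal.ofReal (a z ^ 2 / 4 / 2 ^ (d + 2) * v) ≤ ENNReal.ofReal |τ κ| := by
    rw [ENNReal.ofReal_mul (by positivity)]
    calc _ ≤ ENNReal.ofReal (a z ^ 2 / 4 / 2 ^ (d + 2)) * V := by gcongr
      _ ≤ _ := hlow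
      _ ≤ _ := hmin
      _ ≤ _ := ENNReal.ofReal_le_ofReal (le_abs_self _)
  rw [ENNReal.ofReal_le_ofReal_iff (abs_nonneg _)] at h5
  have h7 : a z ^ 2 = 4 * 2 ^ (d + 2) / v * (a z ^ 2 / 4 / 2 ^ (d + 2) * v) := by
    field_simp
  rw [h7]
  gcongr

end Pool.Agent.N164.RM
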